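import Pool.Agent.helper62.DP7.Spec

set_option autoImplicit false
set_option linter.unusedSimpArgs false

namespace Pool.Agent.helper62.DP7

open Finset

theorem GIR_c3 {V : Type} (G : SimpleGraph V)
    (H : ∀ (v : V) (c : G.Walk v v), c.IsCycle → 6 ≤ c.length) (x y z : V)
    (h1 : G.Adj x y) (h2 : G.Adj y z) (h3 : G.Adj z x) : False := by
  have n1 := h1.ne
  have n2 := h2.ne
  have n3 := h3.ne
  have hc : (SimpleGraph.Walk.cons h1 (SimpleGraph.Walk.cons h2
      (SimpleGraph.Walk.cons h3 SimpleGraph.Walk.nil))).IsCycle := by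
    rw [SimpleGraph.Walk.cons_isCycle_iff]
    constructor
    · rw [SimpleGraph.Walk.isPath_def]
      simp [n1.symm, n2, n3]
    · simp [n1, n2, n3, n1.symm, n2.symm, n3.symm]
  have := H x _ hc
  simp at this

theorem GIR_c4 {V : Type} (G : SimpleGraph V)
    (H : ∀ (v : V) (c : G.Walk v v), c.IsCycle → 6 ≤ c.length) (x y z w : V)
    (h1 : G.Adj x y) (h2 : G.Adj y z) (h3 : G.Adj z w) (h4 : G.Adj w x) (h5 : x ≠ z) (h6 : y ≠ w) :
    False := by
  have n1 := h1.ne
  have n2 := h2.ne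
  have n3 := h3.ne
  have n4 := h4.ne
  have hc : (SimpleGraph.Walk.cons h1 (SimpleGraph.Walk.cons h2
      (SimpleGraph.Walk.cons h3 (SimpleGraph.Walk.cons h4 SimpleGraph.Walk.nil)))).IsCycle := by
    rw [SimpleGraph.Walk.cons_isCycle_iff]
    constructor
    · rw [SimpleGraph.Walk.isPath_def]
      simp [n1.symm, n2, n3, n4, h5.symm, h6]
    · simp [n1, n2, n3, n4, n1.symm, n2.symm, n3.symm, n4.symm, h5, h6, h5.symm, h6.symm]
  have := H x _ hc
  simp at this

theorem GIR_c5 {V : Type} (G : SimpleGraph V)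
    (H : ∀ (v : V) (c : G.Walk v v), c.IsCycle → 6 ≤ c.length) (x y z s t : V)
    (h1 : G.Adj x y) (h2 : G.Adj y z) (h3 : G.Adj z s) (h4 : G.Adj s t) (h5 : G.Adj t x)
    (m1 : x ≠ z) (m2 : x ≠ s) (m3 : y ≠ s) (m4 : y ≠ t) (m5 : z ≠ t) : False := by
  have n1 := h1.ne
  have n2 := h2.ne
  have n3 := h3.ne
  have n4 := h4.ne
  have n5 := h5.ne
  have hc : (SimpleGraph.Walk.cons h1 (SimpleGraph.Walk.cons h2
      (SimpleGraph.Walk.cons h3 (SimpleGraph.Walk.cons h4
        (SimpleGraph.Walk.cons h5 SimpleGraph.Walk.nil))))).IsCycle := by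
    rw [SimpleGraph.Walk.cons_isCycle_iff]
    constructor
    · rw [SimpleGraph.Walk.isPath_def]
      simp [n1.symm, n2, n3, n4, n5, m1.symm, m2.symm, m3, m4, m5]
    · simp [n1, n2, n3, n4, n5, n1.symm, n2.symm, n3.symm, n4.symm, n5.symm, m1, m2, m3, m4, m5,
        m1.symm, m2.symm, m3.symm, m4.symm, m5.symm]
  have := H x _ hc
  simp at this

theorem GIR : GIR_stmt := by
  intro V G H
  refine ⟨GIR_c3 G H, ?_, ?_⟩
  · intro x y z y' h1 h2 h3 h4 hne
    by_contra hy
    exact GIR_c4 G H x y z y' h1 h2 h4.symm h3.symm hne hy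
  · intro x y z s t h1 h2 h3 h4 h5
    by_cases m1 : x = z
    · subst m1
      exact GIR_c3 G H x s t h3 h4 h5
    by_cases m2 : x = s
    · subst m2
      exact GIR_c3 G H x y z h1 h2 h3
    by_cases m3 : y = s
    · subst m3
      exact GIR_c3 G H x y t h1 h4 h5
    by_cases m4 : y = t
    · subst m4
      exact GIR_c3 G H y z s h2 h3 h4
    by_cases m5 : z = t
    · subst m5
      exact GIR_c3 G H x y z h1 h2 h5
    exact GIR_c5 G H x y z s t h1 h2 h3 h4 h5 m1 m2 m3 m4 m5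

end Pool.Agent.helper62.DP7
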